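import Pool.Agent.Run7.h506.LF.Fin

/-!
# MP_ae5b4e_an: foliations by the images of one curve under an expanding linear flow

`A` is a linear map of the plane with `exp (t A) → 0` as `t → -∞`.  `f` is a smooth function on
the punctured plane with `f (exp (t A) x) = f x + t`: so `γ = {f = 0}` is a closed curve around the
origin which meets every orbit of the flow once and transversally, and the leaf `{f = t}` is the
image `exp (t A) γ` of `γ` (homothetic images for `A = 1`, rotated homothetic images for
`A = 1 + ω J`, anisotropic dilations for diagonal `A`, ...).  Nothing else is assumed about the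
curve `γ` except that it has positive curvature, `curved`: on the tangent line of `γ` at `p`
(direction `v` with `fderiv ℝ f p v = 0`) the function `f` has a nondegenerate minimum at `p`.
`proj` says that the involution which exchanges the two points of each leaf on this tangent line
near `p` is projective: a projective involution of the line (coordinate `s`) that fixes `s = 0` and
exchanges the two sides is `s ↦ -s / (1 + c s)`.

Conclusion: `exp (τ f)`, `τ` the trace of `A`, is a positive definite quadratic form `q`, that is,
`γ` is an ellipse centred at the origin and the leaves are the homothetic ellipses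
`q = exp (τ t)`, which belong to the pencil spanned by `q` and the double line at infinity.

Proof (`Pool/Agent/Run7/h506/LF`): the moving frame `e, A x` (`e` tangent to the leaf, normalised
by `D²f (e, e) = 1`) has structure equations with five invariants; the fifth order condition for
projectivity closes them to an autonomous polynomial differential equation along every straight
line; hence `f` is real analytic on the tangent lines although `γ` is only smooth; tangent lines
avoid the origin and `f` tends to infinity at both ends of them, so a projective involution must be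
the point reflection; this gives `g = 0`, then the invariants are constant (maximum of one of them),
and the Hessian of `exp (τ f)` is constant.
-/

set_option autoImplicit false

open Filter Topology

namespace Pool.Agent.Results.MP_ae5b4e_an.LinearFlows

theorem result (A : ℝ × ℝ →L[ℝ] ℝ × ℝ) (f : ℝ × ℝ → ℝ)
    (expanding : Tendsto (fun t : ℝ => NormedSpace.exp (t • A)) atBot (𝓝 0))
    (smooth : ContDiffOn ℝ (⊤ : ℕ∞) f {x | x ≠ 0})
    (flow : ∀ (t : ℝ) (x : ℝ × ℝ), x ≠ 0 → f (NormedSpace.exp (t • A) x) = f x + t)
    (curved : ∀ p v : ℝ × ℝ, p ≠ 0 → f p = 0 → v ≠ 0 → fderiv ℝ f p v = 0 →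
      0 < deriv (deriv fun s : ℝ => f (p + s • v)) 0)
    (proj : ∀ p v : ℝ × ℝ, p ≠ 0 → f p = 0 → v ≠ 0 → fderiv ℝ f p v = 0 →
      ∃ c : ℝ, ∀ᶠ s in 𝓝 (0 : ℝ), f (p + s • v) = f (p - (s / (1 + c * s)) • v)) :
    ∃ a b c : ℝ, 0 < a ∧ b ^ 2 < a * c ∧ ∀ x y : ℝ, ((x, y) : ℝ × ℝ) ≠ 0 →
      Real.exp (((A (1, 0)).1 + (A (0, 1)).2) * f (x, y)) =
        a * x ^ 2 + 2 * b * x * y + c * y ^ 2 :=
  (Pool.Agent.Run7.h506.LF.Fol.main
    ⟨Pool.Agent.Run7.h506.LF.exp_isFlow A expanding, smooth, flow, curved⟩ proj)

end Pool.Agent.Results.MP_ae5b4e_an.LinearFlows
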